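import Mathlib

set_option autoImplicit false

namespace Pool.Agent.Results.MP_130313_co.PackConst

open Finset

/-- chromatic number as a natural number -/
noncomputable def chi {m : ℕ} (F : SimpleGraph (Fin m)) : ℕ := F.chromaticNumber.toNat

/-- least size of a colour class in a proper colouring with `chi F` colours -/
noncomputable def sigma {m : ℕ} (F : SimpleGraph (Fin m)) : ℕ :=
  sInf {s | ∃ (c : F.Coloring (Fin (chi F))) (i : Fin (chi F)), s = Nat.card {v // c v = i}}

/-- critical chromatic number -/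
noncomputable def chiCr {m : ℕ} (F : SimpleGraph (Fin m)) : ℝ :=
  ((chi F : ℝ) - 1) * m / ((m : ℝ) - sigma F)

/-- the condition hcf(F) = 1 -/
def HcfOne {m : ℕ} (F : SimpleGraph (Fin m)) : Prop :=
  if chi F ≤ 2 then
    (∀ d : ℕ, (∀ C : F.ConnectedComponent, d ∣ Nat.card C.supp) → d = 1) ∧
    (∀ (c : F.Coloring (Fin 2)) (d : ℕ),
      (∀ C : F.ConnectedComponent, (d : ℤ) ∣
        (Nat.card {v // v ∈ C.supp ∧ c v = 0} : ℤ) - (Nat.card {v // v ∈ C.supp ∧ c v = 1} : ℤ)) →
      d ≤ 2)
  else
    ∀ d : ℕ, (∀ (c : F.Coloring (Fin (chi F))) (i j : Fin (chi F)),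
      (d : ℤ) ∣ (Nat.card {v // c v = i} : ℤ) - (Nat.card {v // c v = j} : ℤ)) → d = 1

open Classical in
noncomputable def chiStar {m : ℕ} (F : SimpleGraph (Fin m)) : ℝ :=
  if HcfOne F then chiCr F else chi F

/-- `G` has vertex-disjoint copies of `F` covering every vertex -/
def PerfectPacking {m n : ℕ} (F : SimpleGraph (Fin m)) (G : SimpleGraph (Fin n)) : Prop :=
  ∃ (k : ℕ) (φ : Fin k → F.Copy G), Function.Bijective (fun p : Fin k × Fin m => φ p.1 p.2)

open Classical in
/-- least minimum degree forcing a perfect packing in `n`-vertex graphs -/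
noncomputable def delta {m : ℕ} (F : SimpleGraph (Fin m)) (n : ℕ) : ℕ :=
  sInf {k | ∀ G : SimpleGraph (Fin n), k ≤ G.minDegree → PerfectPacking F G}

def F0 : SimpleGraph (Fin 15) where
  Adj a b := (a.val = 0 ∧ 1 ≤ b.val ∧ b.val ≤ 6) ∨ (b.val = 0 ∧ 1 ≤ a.val ∧ a.val ≤ 6) ∨
    (a.val = 7 ∧ 8 ≤ b.val) ∨ (b.val = 7 ∧ 8 ≤ a.val)
  symm := ⟨fun a b h => by omega⟩
  loopless := ⟨fun a h => by omega⟩

instance : DecidableRel F0.Adj := fun a b => by unfold F0; infer_instance

def c0 : F0.Coloring (Fin 2) :=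
  SimpleGraph.Coloring.mk (fun v => if v.val = 0 ∨ v.val = 7 then 0 else 1) (by decide)

lemma chi0 : chi F0 = 2 := by
  have h1 : F0.chromaticNumber ≤ (2 : ℕ) := SimpleGraph.Colorable.chromaticNumber_le ⟨c0⟩
  have h2 : 2 ≤ F0.chromaticNumber :=
    SimpleGraph.two_le_chromaticNumber_of_adj (u := 0) (v := 1) (by decide)
  have : F0.chromaticNumber = 2 := le_antisymm h1 h2
  unfold chi
  rw [this]; rfl

lemma sigma_eq {m k : ℕ} (F : SimpleGraph (Fin m)) (h : chi F = k) : sigma F =
    sInf {s | ∃ (c : F.Coloring (Fin k)) (i : Fin k), s = Nat.card {v // c v = i}} := by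
  subst h; rfl

lemma sigma0 : sigma F0 ≤ 2 := by
  rw [sigma_eq F0 chi0]
  apply Nat.sInf_le
  refine ⟨c0, 0, ?_⟩
  rw [Nat.card_eq_fintype_card]
  decide

lemma reach {u v : Fin 15} (h : F0.Reachable u v) : u.val ≤ 6 ↔ v.val ≤ 6 := by
  obtain ⟨p⟩ := h
  induction p with
  | nil => rfl
  | cons h q ih =>
    rw [← ih]
    unfold F0 at h
    simp only at h
    omega

lemma supp0 (v : Fin 15) : v ∈ (F0.connectedComponentMk 0).supp ↔ v.val ≤ 6 := by
  rw [SimpleGraph.ConnectedComponent.mem_supp_iff, SimpleGraph.ConnectedComponent.eq]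
  constructor
  · intro h; exact (reach h).mpr (by decide)
  · intro h
    by_cases a : v = 0
    · rw [a]
    · exact (by revert v; decide : F0.Adj v 0).reachable

lemma supp7 (v : Fin 15) : v ∈ (F0.connectedComponentMk 7).supp ↔ 7 ≤ v.val := by
  rw [SimpleGraph.ConnectedComponent.mem_supp_iff, SimpleGraph.ConnectedComponent.eq]
  constructor
  · intro h
    have := reach h
    have e : ¬ ((7 : Fin 15).val ≤ 6) := by decide
    omega
  · intro h
    by_cases a : v = 7
    · rw [a]
    · exact (by revert v; decide : F0.Adj v 7).reachable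

lemma card_iff (p : Fin 15 → Prop) (q : Fin 15 → Prop) [DecidablePred q] (h : ∀ v, p v ↔ q v) :
    Nat.card {v // p v} = (univ.filter q).card := by
  rw [Nat.card_congr (Equiv.subtypeEquivRight h), Nat.card_eq_fintype_card, Fintype.card_subtype]

lemma hcf0 : HcfOne F0 := by
  unfold HcfOne
  rw [if_pos chi0.le]
  constructor
  · intro d hd
    have a := hd (F0.connectedComponentMk 0)
    have b := hd (F0.connectedComponentMk 7)
    have ea : Nat.card (F0.connectedComponentMk 0).supp = 7 := (card_iff _ _ supp0).trans (by decide)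
    have eb : Nat.card (F0.connectedComponentMk 7).supp = 8 := (card_iff _ _ supp7).trans (by decide)
    rw [ea] at a
    rw [eb] at b
    exact Nat.dvd_one.mp ((Nat.dvd_add_right a).mp b)
  · intro c d hd
    have a := hd (F0.connectedComponentMk 0)
    have b := hd (F0.connectedComponentMk 7)
    have f2 : ∀ x y z : Fin 2, x ≠ y → (x = z ↔ y ≠ z) := by decide
    have A : ∀ z v, (v ∈ (F0.connectedComponentMk 0).supp ∧ c v = z) ↔
        (v.val ≤ 6 ∧ (v = 0 ↔ c 0 = z)) := by
      intro z v
      rw [supp0]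
      apply and_congr_right
      intro h
      by_cases e : v = 0
      · simp [e]
      · rw [f2 _ _ z (c.valid (by revert v; decide : F0.Adj v 0))]
        simp [e]
    have B : ∀ z v, (v ∈ (F0.connectedComponentMk 7).supp ∧ c v = z) ↔
        (7 ≤ v.val ∧ (v = 7 ↔ c 7 = z)) := by
      intro z v
      rw [supp7]
      apply and_congr_right
      intro h
      by_cases e : v = 7
      · simp [e]
      · rw [f2 _ _ z (c.valid (by revert v; decide : F0.Adj v 7))]
        simp [e]
    rw [card_iff _ _ (A 0), card_iff _ _ (A 1)] at a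
    rw [card_iff _ _ (B 0), card_iff _ _ (B 1)] at b
    have a5 : ∀ x : Fin 2, |((univ.filter (fun v : Fin 15 => v.val ≤ 6 ∧ (v = 0 ↔ x = 0))).card : ℤ) -
        (univ.filter (fun v : Fin 15 => v.val ≤ 6 ∧ (v = 0 ↔ x = 1))).card| = 5 := by decide
    have b6 : ∀ x : Fin 2, |((univ.filter (fun v : Fin 15 => 7 ≤ v.val ∧ (v = 7 ↔ x = 0))).card : ℤ) -
        (univ.filter (fun v : Fin 15 => 7 ≤ v.val ∧ (v = 7 ↔ x = 1))).card| = 6 := by decide
    rw [← dvd_abs, a5] at a
    rw [← dvd_abs, b6] at b
    have : (d : ℤ) ∣ 1 := by simpa using dvd_sub b a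
    have : d ∣ 1 := by exact_mod_cast this
    have := Nat.dvd_one.mp this
    omega

def G0 (n x : ℕ) : SimpleGraph (Fin n) where
  Adj a b := ¬ (a.val < x ↔ b.val < x)
  symm := ⟨fun a b h => by tauto⟩
  loopless := ⟨fun a h => h Iff.rfl⟩

lemma card_lt (n x : ℕ) (h : x ≤ n) : (univ.filter (fun v : Fin n => v.val < x)).card = x := by
  rw [Fin.card_filter_val_lt]; omega

open Classical in
lemma mindeg (n x : ℕ) (h : 2 * x ≤ n) (hn : 0 < n) : x ≤ (G0 n x).minDegree := by
  have : Nonempty (Fin n) := ⟨⟨0, hn⟩⟩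
  apply SimpleGraph.le_minDegree_of_forall_le_degree
  intro v
  have c1 := card_lt n x (by omega)
  have c2 := card_filter_add_card_filter_not (s := univ) (fun v : Fin n => v.val < x)
  rw [c1, card_univ, Fintype.card_fin] at c2
  rw [← SimpleGraph.card_neighborFinset_eq_degree]
  by_cases a : v.val < x
  · have : (G0 n x).neighborFinset v = univ.filter (fun v : Fin n => ¬ v.val < x) := by
      ext u; simp [G0, a]
    rw [this]; omega
  · have : (G0 n x).neighborFinset v = univ.filter (fun v : Fin n => v.val < x) := by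
      ext u; simp [G0, a]
    rw [this]; omega

lemma nopack (k : ℕ) (hk : 4 ≤ k) : ¬ PerfectPacking F0 (G0 (15 * k) (2 * k + 19)) := by
  rintro ⟨j, φ, hφ⟩
  have hj : j = k := by
    have := Fintype.card_of_bijective hφ
    simp only [Fintype.card_prod, Fintype.card_fin] at this
    omega
  subst hj
  have c1 := card_lt (15 * j) (2 * j + 19) (by omega)
  have c2 : (univ.filter (fun p : Fin j × Fin 15 => (φ p.1 p.2).val < 2 * j + 19)).card =
      (univ.filter (fun v : Fin (15 * j) => v.val < 2 * j + 19)).card := by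
    apply card_bij (fun p _ => φ p.1 p.2)
    · intro p hp; exact mem_filter.mpr ⟨mem_univ _, (mem_filter.mp hp).2⟩
    · intro p _ q _ e; exact hφ.1 e
    · intro v hv
      obtain ⟨p, rfl⟩ := hφ.2 v
      exact ⟨p, mem_filter.mpr ⟨mem_univ _, (mem_filter.mp hv).2⟩, rfl⟩
  rw [c1, card_filter, Fintype.sum_prod_type] at c2
  have key : ∀ i, (∑ v : Fin 15, if (φ i v).val < 2 * j + 19 then 1 else 0) =
      2 + 5 * (if (φ i 0).val < 2 * j + 19 then 0 else 1) +
        6 * (if (φ i 7).val < 2 * j + 19 then 0 else 1) := by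
    intro i
    have e : ∀ v : Fin 15, ((φ i v).val < 2 * j + 19) ↔
        (if v.val ≤ 6 then (v = 0 ↔ decide ((φ i 0).val < 2 * j + 19) = true)
         else (v = 7 ↔ decide ((φ i 7).val < 2 * j + 19) = true)) := by
      intro v
      split_ifs with h
      · by_cases a : v = 0
        · simp [a]
        · have := (φ i).toHom.map_adj (by revert v; decide : F0.Adj v 0)
          change ¬ ((φ i v).val < _ ↔ (φ i 0).val < _) at this
          simp only [a, decide_eq_true_eq]
          tauto
      · by_cases a : v = 7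
        · simp [a]
        · have := (φ i).toHom.map_adj (by revert v; decide : F0.Adj v 7)
          change ¬ ((φ i v).val < _ ↔ (φ i 7).val < _) at this
          simp only [a, decide_eq_true_eq]
          tauto
    have d : ∀ x y : Bool, (∑ v : Fin 15, if (if v.val ≤ 6 then (v = 0 ↔ x = true)
         else (v = 7 ↔ y = true)) then 1 else 0) =
         2 + 5 * (if x = true then 0 else 1) + 6 * (if y = true then 0 else 1) := by decide
    have := d (decide ((φ i 0).val < 2 * j + 19)) (decide ((φ i 7).val < 2 * j + 19))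
    simp only [← e] at this
    simpa only [decide_eq_true_eq] using this
  simp only [key, sum_add_distrib, ← mul_sum, sum_const, card_univ, Fintype.card_fin,
    smul_eq_mul] at c2
  omega

theorem result : ¬ ∀ (m : ℕ) (F : SimpleGraph (Fin m)), F ≠ ⊥ →
    ∃ n₀ : ℕ, ∀ n ≥ n₀, m ∣ n → (delta F n : ℝ) ≤ (1 - 1 / chiStar F) * n + m := by
  classical
  intro h
  obtain ⟨n₀, hn⟩ := h 15 F0 (by
    intro e
    have : F0.Adj 0 1 := by decide
    rw [e] at this
    exact this)
  have h1 := hn (15 * (n₀ + 4)) (by omega) (Dvd.intro _ rfl)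
  have h2 : 2 * (n₀ + 4) + 19 < delta F0 (15 * (n₀ + 4)) := by
    by_contra hc
    have ne : {k | ∀ G : SimpleGraph (Fin (15 * (n₀ + 4))), k ≤ G.minDegree →
        PerfectPacking F0 G}.Nonempty := by
      refine ⟨15 * (n₀ + 4), fun G hG => ?_⟩
      have : Nonempty (Fin (15 * (n₀ + 4))) := ⟨⟨0, by omega⟩⟩
      have := G.minDegree_lt_card
      rw [Fintype.card_fin] at this
      omega
    have := Nat.sInf_mem ne (G0 _ (2 * (n₀ + 4) + 19))
      ((not_lt.mp hc).trans (mindeg _ _ (by omega) (by omega)))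
    exact nopack (n₀ + 4) (by omega) this
  have h3 : 1 - 1 / chiStar F0 ≤ 2 / 15 := by
    unfold chiStar
    rw [if_pos hcf0]
    unfold chiCr
    rw [chi0]
    have : (sigma F0 : ℝ) ≤ 2 := by exact_mod_cast sigma0
    norm_num
    linarith
  have h4 : (2 : ℝ) * (n₀ + 4) + 19 < delta F0 (15 * (n₀ + 4)) := by exact_mod_cast h2
  have h5 : (0 : ℝ) ≤ n₀ := Nat.cast_nonneg _
  push_cast at h1
  nlinarith

end Pool.Agent.Results.MP_130313_co.PackConst
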